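import Mathlib
import Pool.Agent.TreeAlpha.Chordal
import Pool.Agent.TreeAlpha.Tree

/-!
# Fractionally tree-alpha-fragile classes have bounded independence degeneracy
-/

set_option autoImplicit false

namespace Pool.Agent.Results.MP_1b53c2_co.BoundedIdeg

open Finset Pool.Agent.TreeAlpha

universe u

/-- A finite simple graph. -/
structure FinGraph where
  V : Type u
  finite : Finite V
  graph : SimpleGraph V

/-- A tree decomposition `(T, (bag x))` of `G`: a finite tree `T` and a family of bags indexed by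
its nodes, such that every vertex lies in some bag, both ends of every edge lie in a common bag,
and the nodes whose bags contain a given vertex induce a connected subgraph of `T`. -/
structure TreeDecomposition {V : Type u} (G : SimpleGraph V) where
  Node : Type
  finite : Finite Node
  T : SimpleGraph Node
  isTree : T.IsTree
  bag : Node → Set V
  mem_bag : ∀ v, ∃ x, v ∈ bag x
  adj_bag : ∀ v w, G.Adj v w → ∃ x, v ∈ bag x ∧ w ∈ bag x
  connected : ∀ v, (T.induce {x | v ∈ bag x}).Connected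

/-- The tree-independence number of `G`: the least `k` such that some tree decomposition of `G`
has all its bags inducing subgraphs of independence number at most `k`. -/
noncomputable def treeAlpha {V : Type u} (G : SimpleGraph V) : ℕ :=
  sInf {k | ∃ D : TreeDecomposition G, ∀ x, (G.induce (D.bag x)).indepNum ≤ k}

open Classical in
/-- `𝒞` is a `β`-general cover: a nonempty multiset of sets of vertices such that every vertex
lies in at least `β |𝒞|` members of `𝒞`. -/
def IsGeneralCover {V : Type u} (β : ℝ) (𝒞 : Multiset (Set V)) : Prop :=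
  𝒞 ≠ 0 ∧ ∀ v : V, β * Multiset.card 𝒞 ≤ Multiset.card (𝒞.filter (fun C => v ∈ C))

/-- Fractional tree-alpha-fragility of a class of finite graphs: for some `f : ℕ → ℕ` and all
`r ≥ 1`, every graph of the class has a `(1 - 1/r)`-general cover all of whose members induce
subgraphs of tree-independence number at most `f r`. -/
def FracTreeAlphaFragile (𝒢 : Set FinGraph.{u}) : Prop :=
  ∃ f : ℕ → ℕ, ∀ r : ℕ, 1 ≤ r → ∀ Γ ∈ 𝒢, ∃ 𝒞 : Multiset (Set Γ.V),
    IsGeneralCover (1 - 1 / (r : ℝ)) 𝒞 ∧ ∀ C ∈ 𝒞, treeAlpha (Γ.graph.induce C) ≤ f r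

/-- The independence degeneracy of `G`: the least `k` such that every nonnull induced subgraph
`G[U]` has a vertex whose neighbourhood in `G[U]` induces a subgraph of independence number at
most `k`. -/
noncomputable def ideg {V : Type u} (G : SimpleGraph V) : ℕ :=
  sInf {k | ∀ U : Set V, U.Nonempty →
    ∃ v ∈ U, (G.induce (G.neighborSet v ∩ U)).indepNum ≤ k}

/-! ### Auxiliary lemmas -/

theorem card_le_indepNum {V : Type u} [Finite V] (G : SimpleGraph V) (s : Set V) (A : Finset V)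
    (hA : ∀ v ∈ A, v ∈ s) (hind : ∀ v ∈ A, ∀ w ∈ A, v ≠ w → ¬ G.Adj v w) :
    A.card ≤ (G.induce s).indepNum := by
  classical
  have h1 : (A.subtype (· ∈ s)).card = A.card := by
    rw [card_subtype]
    congr 1
    exact filter_true_of_mem hA
  rw [← h1]
  apply SimpleGraph.IsIndepSet.card_le_indepNum
  intro v hv w hw hvw
  rw [mem_coe, mem_subtype] at hv hw
  have hne : (v : V) ≠ w := fun h => hvw (Subtype.ext h)
  simpa using hind v hv w hw hne

theorem exists_indep {V : Type u} [Finite V] (G : SimpleGraph V) (s : Set V) (k : ℕ)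
    (hk : k ≤ (G.induce s).indepNum) :
    ∃ A : Finset V, (∀ v ∈ A, v ∈ s) ∧ (∀ v ∈ A, ∀ w ∈ A, v ≠ w → ¬ G.Adj v w) ∧ A.card = k := by
  classical
  obtain ⟨B, hB⟩ := (G.induce s).exists_isNIndepSet_indepNum
  have h1 : k ≤ B.card := by rw [hB.card_eq]; exact hk
  obtain ⟨B', hB'sub, hB'card⟩ := exists_subset_card_eq h1
  refine ⟨B'.map (Function.Embedding.subtype _), ?_, ?_, by rw [card_map, hB'card]⟩
  · intro v hv
    rw [mem_map] at hv
    obtain ⟨w, -, rfl⟩ := hv
    exact w.2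
  · intro v hv w hw hvw
    rw [mem_map] at hv hw
    obtain ⟨v', hv', rfl⟩ := hv
    obtain ⟨w', hw', rfl⟩ := hw
    have hne : v' ≠ w' := fun h => hvw (by rw [h])
    have := hB.isIndepSet (hB'sub hv') (hB'sub hw') hne
    simpa using this

theorem sum_swap {α β : Type*} (𝒞 : Multiset α) (s : Finset β) (g : α → β → ℕ) :
    (𝒞.map (fun C => ∑ v ∈ s, g C v)).sum = ∑ v ∈ s, (𝒞.map (fun C => g C v)).sum := by
  induction 𝒞 using Multiset.induction_on with
  | empty => simp
  | cons a 𝒞 ih => simp [sum_add_distrib, ih]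

open Classical in
theorem sum_ite {V : Type u} (𝒞 : Multiset (Set V)) (v : V) :
    (𝒞.map (fun C => if v ∉ C then 1 else 0)).sum +
      Multiset.card (𝒞.filter (fun C => v ∈ C)) = Multiset.card 𝒞 := by
  induction 𝒞 using Multiset.induction_on with
  | empty => simp
  | cons a 𝒞 ih =>
    by_cases h : v ∈ a
    · simp only [Multiset.map_cons, h, not_true_eq_false, if_false, Multiset.sum_cons, zero_add,
        Multiset.filter_cons_of_pos, Multiset.card_cons]
      omega
    · simp only [Multiset.map_cons, h, not_false_eq_true, if_true, Multiset.sum_cons,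
        Multiset.filter_cons_of_neg, Multiset.card_cons]
      omega

theorem treeAlpha_mem {V : Type u} [Finite V] (G : SimpleGraph V) (t : ℕ) (h : treeAlpha G ≤ t) :
    ∃ D : TreeDecomposition G, ∀ x, (G.induce (D.bag x)).indepNum ≤ t := by
  have hne : {k | ∃ D : TreeDecomposition G, ∀ x, (G.induce (D.bag x)).indepNum ≤ k}.Nonempty := by
    let D : TreeDecomposition G :=
      { Node := Unit
        finite := inferInstance
        T := ⊥
        isTree := by
          refine ⟨?_, ?_⟩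
          · exact SimpleGraph.connected_iff_exists_forall_reachable _ |>.2
              ⟨(), fun w => by cases w; exact SimpleGraph.Reachable.refl _⟩
          · exact SimpleGraph.isAcyclic_bot
        bag := fun _ => Set.univ
        mem_bag := fun v => ⟨(), trivial⟩
        adj_bag := fun v w _ => ⟨(), trivial, trivial⟩
        connected := fun v => by
          refine SimpleGraph.connected_iff_exists_forall_reachable _ |>.2
              ⟨⟨(), trivial⟩, fun w => ?_⟩
          obtain ⟨w, hw⟩ := w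
          cases w
          exact SimpleGraph.Reachable.refl _ }
    exact ⟨(G.induce Set.univ).indepNum, D, fun x => le_rfl⟩
  obtain ⟨D, hD⟩ := Nat.sInf_mem hne
  exact ⟨D, fun x => (hD x).trans h⟩

/-- The elimination structure of a tree decomposition of an induced subgraph. -/
theorem exists_elim {V : Type u} [Finite V] (G : SimpleGraph V) (C : Set V)
    (D : TreeDecomposition (G.induce C)) (t : ℕ)
    (hD : ∀ x, ((G.induce C).induce (D.bag x)).indepNum ≤ t) :
    ∃ (touch : V → V → Prop) (ρ : V → ℕ) (B : V → Set V), Elim touch ρ B ∧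
      (∀ v ∈ C, touch v v) ∧ (∀ v ∈ C, ∀ w ∈ C, G.Adj v w → touch v w) ∧
      ∀ v ∈ C, ∀ A : Finset V, (∀ w ∈ A, w ∈ B v) →
        (∀ w ∈ A, ∀ w' ∈ A, w ≠ w' → ¬ G.Adj w w') → A.card ≤ t := by
  classical
  set bag' : D.Node → Set V := fun x => {v | ∃ h : v ∈ C, (⟨v, h⟩ : C) ∈ D.bag x} with hbag
  set nodes : V → Set D.Node := fun v => {x | v ∈ bag' x} with hnodes
  have hnodes_eq : ∀ (v : V) (h : v ∈ C), nodes v = {x | (⟨v, h⟩ : C) ∈ D.bag x} := by
    intro v h
    ext x
    simp only [hnodes, hbag]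
    constructor
    · rintro ⟨h', hx⟩; exact hx
    · intro hx; exact ⟨h, hx⟩
  have hbag_card : ∀ x, ∀ A : Finset V, (∀ w ∈ A, w ∈ bag' x) →
      (∀ w ∈ A, ∀ w' ∈ A, w ≠ w' → ¬ G.Adj w w') → A.card ≤ t := by
    intro x A hA hind
    have hAC : ∀ w ∈ A, w ∈ C := fun w hw => (hA w hw).1
    have h1 : (A.subtype (· ∈ C)).card = A.card := by
      rw [card_subtype]
      congr 1
      exact filter_true_of_mem hAC
    rw [← h1]
    refine le_trans (card_le_indepNum (G.induce C) (D.bag x) _ ?_ ?_) (hD x)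
    · intro w hw
      rw [mem_subtype] at hw
      obtain ⟨h, hx⟩ := hA w hw
      exact hx
    · intro w hw w' hw' hne hadj
      rw [mem_subtype] at hw hw'
      exact hind w hw w' hw' (fun h => hne (Subtype.ext h)) (by simpa using hadj)
  obtain ⟨r⟩ : Nonempty D.Node := D.isTree.1.nonempty
  have hne : ∀ v, ∃ a : D.Node, v ∈ C → (a ∈ nodes v ∧
      ∀ z ∈ nodes v, D.T.dist a r ≤ D.T.dist z r) := by
    intro v
    by_cases hv : v ∈ C
    · obtain ⟨x, hx⟩ := D.mem_bag ⟨v, hv⟩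
      have hex : ∃ n, ∃ z ∈ nodes v, D.T.dist z r = n := ⟨_, x, ⟨hv, hx⟩, rfl⟩
      obtain ⟨z, hz, hzn⟩ := Nat.find_spec hex
      refine ⟨z, fun _ => ⟨hz, fun z' hz' => ?_⟩⟩
      rw [hzn]
      exact Nat.find_min' hex ⟨z', hz', rfl⟩
    · exact ⟨r, fun h => absurd h hv⟩
  choose top htop using hne
  set rank : V → ℕ := fun v => D.T.dist (top v) r with hrank
  obtain ⟨n, ⟨e⟩⟩ := Finite.exists_equiv_fin V
  have hfin : Fintype V := Fintype.ofFinite V
  set M : ℕ := ∑ v, rank v with hM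
  have hrM : ∀ v, rank v ≤ M := fun v => single_le_sum (fun _ _ => Nat.zero_le _) (mem_univ v)
  set ρ : V → ℕ := fun v => (M - rank v) * n + (e v : ℕ) with hρ
  have hρrank : ∀ v w, ρ v ≤ ρ w → rank w ≤ rank v := by
    intro v w h
    by_contra hlt
    push Not at hlt
    have h1 : M - rank w + 1 ≤ M - rank v := by
      have := hrM w
      omega
    have h2 : (M - rank w + 1) * n ≤ (M - rank v) * n := Nat.mul_le_mul_right n h1
    have h3 := (e w).isLt
    simp only [hρ] at h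
    rw [add_mul, one_mul] at h2
    omega
  refine ⟨fun v w => ∃ x, v ∈ bag' x ∧ w ∈ bag' x, ρ, fun v => {w | v ∈ C ∧ w ∈ bag' (top v)},
    ⟨?_, ?_, ?_, ?_⟩, ?_, ?_, ?_⟩
  · intro v w h
    have h1 : rank v = rank w := le_antisymm (hρrank w v h.ge) (hρrank v w h.le)
    simp only [hρ, h1] at h
    have h2 : (e v : ℕ) = e w := by omega
    exact e.injective (Fin.ext h2)
  · rintro v w ⟨x, hx⟩
    exact ⟨x, hx.2, hx.1⟩
  · rintro v w ⟨x, hxv, hxw⟩ hle
    have hv : v ∈ C := hxv.1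
    have hw : w ∈ C := hxw.1
    refine ⟨hv, ?_⟩
    have hcv : (D.T.induce (nodes v)).Preconnected := by
      rw [hnodes_eq v hv]; exact (D.connected ⟨v, hv⟩).preconnected
    have hcw : (D.T.induce (nodes w)).Preconnected := by
      rw [hnodes_eq w hw]; exact (D.connected ⟨w, hw⟩).preconnected
    exact top_mem D.isTree r (nodes v) (nodes w) hcv hcw x hxv hxw (top v) (top w)
      (htop v hv).1 (htop w hw).1 (htop v hv).2 (htop w hw).2 (hρrank v w hle)
  · rintro v a b ⟨-, ha⟩ ⟨-, hb⟩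
    exact ⟨_, ha, hb⟩
  · intro v hv
    obtain ⟨x, hx⟩ := D.mem_bag ⟨v, hv⟩
    exact ⟨x, ⟨hv, hx⟩, ⟨hv, hx⟩⟩
  · intro v hv w hw hadj
    obtain ⟨x, hx1, hx2⟩ := D.adj_bag ⟨v, hv⟩ ⟨w, hw⟩ (by simpa using hadj)
    exact ⟨x, ⟨hv, hx1⟩, ⟨hw, hx2⟩⟩
  · intro v _ A hA hind
    exact hbag_card (top v) A (fun w hw => (hA w hw).2) hind

/-- Large independent neighbourhoods of an independent set force a large independent set. -/
theorem local_lemma {V : Type u} [Finite V] [DecidableEq V] (G : SimpleGraph V) (C : Set V)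
    (t : ℕ) (ht : treeAlpha (G.induce C) ≤ t) (S : Finset V) (I : V → Finset V) (k : ℕ)
    (hSC : ∀ v ∈ S, v ∈ C) (hS : ∀ v ∈ S, ∀ w ∈ S, v ≠ w → ¬ G.Adj v w)
    (hI1 : ∀ v ∈ S, ∀ u ∈ I v, u ∈ C ∧ G.Adj v u)
    (hI2 : ∀ v ∈ S, ∀ u ∈ I v, ∀ w ∈ I v, u ≠ w → ¬ G.Adj u w)
    (hk : ∀ v ∈ S, k ≤ 4 * (I v).card) :
    ∃ (X : Finset V) (s : ℕ), X ⊆ S.biUnion I ∧ (∀ u ∈ X, ∀ w ∈ X, u ≠ w → ¬ G.Adj u w) ∧
      S.card ≤ t * s ∧ k * s ≤ 4 * t * (X.card + 2 * s) := by
  obtain ⟨D, hD⟩ := treeAlpha_mem _ t ht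
  obtain ⟨touch, ρ, B, hE, hself, hadj, hcard⟩ := exists_elim G C D t hD
  obtain ⟨S', hS'sub, hS'ind, hS'card⟩ := hE.thin t S.card S le_rfl
    (fun v hv => hself v (hSC v hv))
    (fun v hv A₁ hA₁ hAB => hcard v (hSC v hv) A₁ hAB
      (fun w hw w' hw' hne => hS w (hA₁ hw) w' (hA₁ hw') hne))
  have hJ : ∀ v, ∃ J : Finset V, v ∈ S → (J ⊆ I v ∧
      (∀ u ∈ J, ∀ w ∈ J, u ≠ w → ¬ touch u w) ∧ (I v).card ≤ t * J.card) := by
    intro v
    by_cases hv : v ∈ S
    · obtain ⟨J, h1, h2, h3⟩ := hE.thin t (I v).card (I v) le_rfl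
        (fun u hu => hself u (hI1 v hv u hu).1)
        (fun u hu A₁ hA₁ hAB => hcard u (hI1 v hv u hu).1 A₁ hAB
          (fun w hw w' hw' hne => hI2 v hv w (hA₁ hw) w' (hA₁ hw') hne))
      exact ⟨J, fun _ => ⟨h1, h2, h3⟩⟩
    · exact ⟨∅, fun h => absurd h hv⟩
  choose J hJ using hJ
  obtain ⟨X, hX1, hX2, hX3⟩ := hE.count S' J hS'ind
    (fun v hv u hu => by
      have h1 := hI1 v (hS'sub hv) u ((hJ v (hS'sub hv)).1 hu)
      exact ⟨hadj v (hSC v (hS'sub hv)) u h1.1 h1.2, h1.2.ne'⟩)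
    (fun v hv => (hJ v (hS'sub hv)).2.1)
  have hXsub : X ⊆ S.biUnion I := by
    intro u hu
    have := hX1 hu
    rw [mem_biUnion] at this ⊢
    obtain ⟨v, hv, huv⟩ := this
    exact ⟨v, hS'sub hv, (hJ v (hS'sub hv)).1 huv⟩
  refine ⟨X, S'.card, hXsub, ?_, hS'card, ?_⟩
  · intro u hu w hw huw hc
    have h1 := hXsub hu
    have h2 := hXsub hw
    rw [mem_biUnion] at h1 h2
    obtain ⟨v, hv, huv⟩ := h1
    obtain ⟨v', hv', hwv⟩ := h2
    exact hX2 u hu w hw huw (hadj u (hI1 v hv u huv).1 w (hI1 v' hv' w hwv).1 hc)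
  · calc k * S'.card = ∑ _v ∈ S', k := by rw [sum_const, smul_eq_mul, mul_comm]
      _ ≤ ∑ v ∈ S', 4 * t * (J v).card := by
          refine sum_le_sum fun v hv => ?_
          have h1 := hk v (hS'sub hv)
          have h2 := (hJ v (hS'sub hv)).2.2
          nlinarith
      _ = 4 * t * ∑ v ∈ S', (J v).card := by rw [mul_sum]
      _ ≤ 4 * t * (X.card + 2 * S'.card) := Nat.mul_le_mul_left _ hX3

/-- One graph: a cover of small width bounds the independence degeneracy. -/
theorem ideg_le {V : Type u} [Finite V] (G : SimpleGraph V) (t : ℕ) (𝒞 : Multiset (Set V))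
    (h𝒞 : IsGeneralCover (1 - 1 / ((4 : ℕ) : ℝ)) 𝒞)
    (ht : ∀ C ∈ 𝒞, treeAlpha (G.induce C) ≤ t) : ideg G ≤ 12 * t ^ 2 + 8 * t := by
  classical
  apply Nat.sInf_le
  intro U hU
  by_contra hcon
  push Not at hcon
  set k := 12 * t ^ 2 + 8 * t + 1 with hk
  have hex : ∀ v, ∃ A : Finset V, v ∈ U → ((∀ u ∈ A, u ∈ U ∧ G.Adj v u) ∧
      (∀ u ∈ A, ∀ w ∈ A, u ≠ w → ¬ G.Adj u w) ∧ A.card = k) := by
    intro v
    by_cases hv : v ∈ U
    · obtain ⟨A, h1, h2, h3⟩ := exists_indep G (G.neighborSet v ∩ U) k (hcon v hv)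
      exact ⟨A, fun _ => ⟨fun u hu => ⟨(h1 u hu).2, (h1 u hu).1⟩, h2, h3⟩⟩
    · exact ⟨∅, fun h => absurd h hv⟩
  choose I hI using hex
  have hfin : Fintype V := Fintype.ofFinite V
  -- a maximum independent subset of `U`
  obtain ⟨S, hS, hSmax⟩ := (univ.filter (fun A : Finset V => (∀ u ∈ A, u ∈ U) ∧
    (∀ u ∈ A, ∀ w ∈ A, u ≠ w → ¬ G.Adj u w))).exists_max_image (fun A => A.card)
    ⟨∅, by simp⟩
  rw [mem_filter] at hS
  obtain ⟨-, hSU, hSind⟩ := hS
  have hmax : ∀ A : Finset V, (∀ u ∈ A, u ∈ U) → (∀ u ∈ A, ∀ w ∈ A, u ≠ w → ¬ G.Adj u w) →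
      A.card ≤ S.card := fun A h1 h2 => hSmax A (by rw [mem_filter]; exact ⟨mem_univ _, h1, h2⟩)
  set a := S.card with ha
  have ha1 : 1 ≤ a := by
    obtain ⟨v, hv⟩ := hU
    have := hmax {v} (by simpa using hv) (by
      intro u hu w hw huw
      rw [mem_singleton] at hu hw
      exact absurd (hu.trans hw.symm) huw)
    simpa using this
  -- averaging
  set g : Set V → ℕ := fun C => k * ∑ v ∈ S, (if v ∉ C then 1 else 0) +
    ∑ v ∈ S, ∑ u ∈ I v, (if u ∉ C then 1 else 0) with hg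
  have hmiss : ∀ v : V, 4 * (𝒞.map (fun C => if v ∉ C then 1 else 0)).sum ≤
      Multiset.card 𝒞 := by
    intro v
    have h1 := h𝒞.2 v
    have h2 := sum_ite 𝒞 v
    have h3 : (3 : ℝ) * Multiset.card 𝒞 ≤
        4 * Multiset.card (𝒞.filter (fun C => v ∈ C)) := by
      push_cast at h1
      linarith
    have h4 : 3 * Multiset.card 𝒞 ≤ 4 * Multiset.card (𝒞.filter (fun C => v ∈ C)) := by
      exact_mod_cast h3
    omega
  have hsum : 2 * (𝒞.map g).sum ≤ Multiset.card 𝒞 * (a * k) := by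
    have e1 : (𝒞.map g).sum = k * ∑ v ∈ S, (𝒞.map (fun C => if v ∉ C then 1 else 0)).sum +
        ∑ v ∈ S, ∑ u ∈ I v, (𝒞.map (fun C => if u ∉ C then 1 else 0)).sum := by
      simp only [hg]
      rw [Multiset.sum_map_add, Multiset.sum_map_mul_left, sum_swap, sum_swap]
      congr 1
      refine sum_congr rfl fun v _ => ?_
      rw [sum_swap]
    have e2 : 4 * ∑ v ∈ S, (𝒞.map (fun C => if v ∉ C then 1 else 0)).sum ≤
        a * Multiset.card 𝒞 := by
      rw [mul_sum]
      calc ∑ v ∈ S, 4 * (𝒞.map (fun C => if v ∉ C then 1 else 0)).sum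
          ≤ ∑ _v ∈ S, Multiset.card 𝒞 := sum_le_sum fun v _ => hmiss v
        _ = a * Multiset.card 𝒞 := by rw [sum_const, smul_eq_mul]
    have e3 : 4 * ∑ v ∈ S, ∑ u ∈ I v, (𝒞.map (fun C => if u ∉ C then 1 else 0)).sum ≤
        a * (k * Multiset.card 𝒞) := by
      rw [mul_sum]
      calc ∑ v ∈ S, 4 * ∑ u ∈ I v, (𝒞.map (fun C => if u ∉ C then 1 else 0)).sum
          ≤ ∑ _v ∈ S, k * Multiset.card 𝒞 := by
            refine sum_le_sum fun v hv => ?_
            rw [mul_sum]
            calc ∑ u ∈ I v, 4 * (𝒞.map (fun C => if u ∉ C then 1 else 0)).sum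
                ≤ ∑ _u ∈ I v, Multiset.card 𝒞 := sum_le_sum fun u _ => hmiss u
              _ = k * Multiset.card 𝒞 := by
                  rw [sum_const, smul_eq_mul, (hI v (hSU v hv)).2.2]
        _ = a * (k * Multiset.card 𝒞) := by rw [sum_const, smul_eq_mul]
    rw [e1]
    nlinarith
  have hexC : ∃ C ∈ 𝒞, 2 * g C ≤ a * k := by
    by_contra hno
    push Not at hno
    have h1 : Multiset.card (𝒞.map (fun C => 2 * g C)) • (a * k + 1) ≤
        (𝒞.map (fun C => 2 * g C)).sum := by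
      apply Multiset.card_nsmul_le_sum
      intro x hx
      rw [Multiset.mem_map] at hx
      obtain ⟨C, hC, rfl⟩ := hx
      exact hno C hC
    rw [Multiset.card_map, Multiset.sum_map_mul_left, smul_eq_mul] at h1
    have h2 : 0 < Multiset.card 𝒞 := Multiset.card_pos.2 h𝒞.1
    nlinarith
  obtain ⟨C, hC, hCg⟩ := hexC
  set S0 := S.filter (fun v => v ∈ C) with hS0
  set I' : V → Finset V := fun v => (I v).filter (fun u => u ∈ C) with hI'
  have hI'card : ∀ v ∈ S, (I' v).card + ∑ u ∈ I v, (if u ∉ C then 1 else 0) = k := by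
    intro v hv
    rw [← (hI v (hSU v hv)).2.2, ← card_filter]
    exact card_filter_add_card_filter_not _
  have hS0card : S0.card + ∑ v ∈ S, (if v ∉ C then 1 else 0) = a := by
    rw [← card_filter]
    exact card_filter_add_card_filter_not _
  have hbig : a * k ≤ 2 * ∑ v ∈ S0, (I' v).card := by
    have h1 : ∑ v ∈ S0, (I' v).card + ∑ v ∈ S, ∑ u ∈ I v, (if u ∉ C then 1 else 0) ≥
        S0.card * k := by
      have h2 : ∑ v ∈ S0, ∑ u ∈ I v, (if u ∉ C then 1 else 0) ≤
          ∑ v ∈ S, ∑ u ∈ I v, (if u ∉ C then 1 else 0) :=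
        sum_le_sum_of_subset (filter_subset _ _)
      have h3 : ∑ v ∈ S0, (I' v).card + ∑ v ∈ S0, ∑ u ∈ I v, (if u ∉ C then 1 else 0) =
          S0.card * k := by
        rw [← sum_add_distrib, ← smul_eq_mul, ← sum_const]
        exact sum_congr rfl fun v hv => hI'card v ((mem_filter.1 hv).1)
      omega
    simp only [hg] at hCg
    nlinarith
  set good := S0.filter (fun v => k ≤ 4 * (I' v).card) with hgood
  have hgoodcard : a ≤ 3 * good.card := by
    have h1 : 4 * ∑ v ∈ S0, (I' v).card ≤ 3 * good.card * k + a * k := by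
      have h2 : ∑ v ∈ S0, 4 * (I' v).card ≤
          ∑ v ∈ S0, (k + if k ≤ 4 * (I' v).card then 3 * k else 0) := by
        refine sum_le_sum fun v hv => ?_
        have h3 := hI'card v ((mem_filter.1 hv).1)
        split_ifs with h4
        · omega
        · omega
      rw [sum_add_distrib, sum_const, smul_eq_mul, ← sum_filter, sum_const, smul_eq_mul,
        ← hgood] at h2
      rw [mul_sum]
      have h5 : S0.card ≤ a := card_filter_le _ _
      nlinarith
    have hkpos : 0 < k := by omega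
    by_contra hlt
    push Not at hlt
    nlinarith
  obtain ⟨X, s, hX1, hX2, hX3, hX4⟩ := local_lemma G C t (ht C hC) good I' k
    (fun v hv => (mem_filter.1 ((mem_filter.1 hv).1)).2)
    (fun v hv w hw => hSind v (mem_filter.1 ((mem_filter.1 hv).1)).1 w
      (mem_filter.1 ((mem_filter.1 hw).1)).1)
    (fun v hv u hu => ⟨(mem_filter.1 hu).2,
      ((hI v (hSU v (mem_filter.1 ((mem_filter.1 hv).1)).1)).1 u (mem_filter.1 hu).1).2⟩)
    (fun v hv u hu w hw => (hI v (hSU v (mem_filter.1 ((mem_filter.1 hv).1)).1)).2.1 u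
      (mem_filter.1 hu).1 w (mem_filter.1 hw).1)
    (fun v hv => (mem_filter.1 hv).2)
  have hXa : X.card ≤ a := by
    apply hmax X _ hX2
    intro u hu
    have := hX1 hu
    rw [mem_biUnion] at this
    obtain ⟨v, hv, huv⟩ := this
    exact ((hI v (hSU v (mem_filter.1 ((mem_filter.1 hv).1)).1)).1 u (mem_filter.1 huv).1).1
  have hs : 0 < s := by
    rw [Nat.pos_iff_ne_zero]
    rintro rfl
    simp at hX3
    rw [hX3] at hgoodcard
    simp at hgoodcard
    omega
  have h6 : X.card + 2 * s ≤ (3 * t + 2) * s := by nlinarith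
  have h7 : k * s ≤ (4 * t * (3 * t + 2)) * s := by
    calc k * s ≤ 4 * t * (X.card + 2 * s) := hX4
      _ ≤ 4 * t * ((3 * t + 2) * s) := Nat.mul_le_mul_left _ h6
      _ = (4 * t * (3 * t + 2)) * s := by ring
  have h8 : k ≤ 4 * t * (3 * t + 2) := Nat.le_of_mul_le_mul_right h7 hs
  have h9 : 4 * t * (3 * t + 2) = 12 * t ^ 2 + 8 * t := by ring
  omega

/-- Every fractionally tree-alpha-fragile class of finite graphs has bounded independence
degeneracy. -/
theorem result (𝒢 : Set FinGraph.{u}) (h𝒢 : FracTreeAlphaFragile 𝒢) :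
    ∃ k : ℕ, ∀ Γ ∈ 𝒢, ideg Γ.graph ≤ k := by
  obtain ⟨f, hf⟩ := h𝒢
  refine ⟨12 * f 4 ^ 2 + 8 * f 4, fun Γ hΓ => ?_⟩
  obtain ⟨𝒞, h1, h2⟩ := hf 4 (by norm_num) Γ hΓ
  have := Γ.finite
  exact ideg_le Γ.graph (f 4) 𝒞 h1 h2

end Pool.Agent.Results.MP_1b53c2_co.BoundedIdeg
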